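import Pool.Agent.L5helper2.GR.MAP

set_option autoImplicit false

/-! The product of `1 - (p-1)/r` over the primes `r ≡ 1 (mod p)` in `(a, b]`, `b ≤ a ^ p`. -/

open Finset Filter Topology

namespace Pool.Agent.L5helper32.GP

open Pool.Agent.L5helper2.GR (th th_succ th_le th_lower fw fw_nonneg fw_anti fw_sum abel)

lemma th_le_AA (p : ℕ) (hp : p.Prime) (n : ℕ) : th p n ≤ Pool.Agent.Cov.AA p n := by
  unfold th Pool.Agent.Cov.AA
  rw [Finset.sum_filter]
  apply Finset.sum_le_sum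
  intro k _
  split_ifs with h
  · rw [Pool.Agent.Cov.R_prime hp h.1 h.2]
  · exact ArithmeticFunction.vonMangoldt.residueClass_nonneg _ k

lemma th_upper (p : ℕ) (hp : p.Prime) {ε : ℝ} (hε : 0 < ε) : ∃ n0 : ℕ, ∀ n : ℕ, n0 ≤ n →
    th p n ≤ (((p : ℝ) - 1)⁻¹ + ε) * n := by
  have h1 := Pool.Agent.Cov.AA_tendsto hp
  have h4 := h1.eventually_lt_const (show ((p : ℝ) - 1)⁻¹ < ((p : ℝ) - 1)⁻¹ + ε by linarith)
  obtain ⟨n0, hn0⟩ := eventually_atTop.1 h4
  refine ⟨max n0 1, fun n hn => ?_⟩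
  have h5 := hn0 n ((le_max_left _ _).trans hn)
  have hn1 : (0 : ℝ) < n := by exact_mod_cast (lt_of_lt_of_le zero_lt_one ((le_max_right _ _).trans hn))
  rw [div_lt_iff₀ hn1] at h5
  exact (th_le_AA p hp n).trans h5.le

/-- discrete partial summation, upper bound -/
lemma abel_upper (p z : ℕ) (hz : 2 ≤ z) (c : ℝ) (hc : ∀ n, z ≤ n → th p n ≤ c * n) (y : ℕ) (hy : z ≤ y) :
    ∑ l ∈ (Ioc z y).filter (fun l => l.Prime ∧ l % p = 1), (1 : ℝ) / l ≤
      c * ∑ n ∈ Ioc z y, fw n + (th p y - c * y) * fw y - (th p z - c * z) * fw z := by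
  induction y, hy using Nat.le_induction with
  | base => simp
  | succ y hy ih =>
    rw [Finset.sum_filter] at ih ⊢
    rw [Finset.sum_Ioc_succ_top (by omega), Finset.sum_Ioc_succ_top (by omega), th_succ]
    have hy2 : 2 ≤ y := hz.trans hy
    have hlog : 0 < Real.log ((y + 1 : ℕ) : ℝ) := Real.log_pos (by exact_mod_cast (by omega : 1 < y + 1))
    have hy0 : (0 : ℝ) < ((y + 1 : ℕ) : ℝ) := by positivity
    have h1 : (th p y - c * y) * (fw y - fw (y + 1)) ≤ 0 :=
      mul_nonpos_of_nonpos_of_nonneg (by linarith [hc y hy]) (by linarith [fw_anti hy2])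
    have h3 : ((y + 1 : ℕ) : ℝ) = y + 1 := by push_cast; ring
    by_cases h : (y + 1).Prime ∧ (y + 1) % p = 1
    · rw [if_pos h, if_pos h]
      have h2 : Real.log ((y + 1 : ℕ) : ℝ) * fw (y + 1) = 1 / ((y + 1 : ℕ) : ℝ) := by
        unfold fw
        field_simp
      have h4 : c * (∑ n ∈ Ioc z y, fw n + fw (y + 1)) +
          (th p y + Real.log ((y + 1 : ℕ) : ℝ) - c * ((y + 1 : ℕ) : ℝ)) * fw (y + 1) -
          (th p z - c * z) * fw z = (c * ∑ n ∈ Ioc z y, fw n + (th p y - c * y) * fw y -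
          (th p z - c * z) * fw z) - (th p y - c * y) * (fw y - fw (y + 1)) +
          Real.log ((y + 1 : ℕ) : ℝ) * fw (y + 1) := by
        rw [h3]; ring
      rw [h4, h2]
      linarith
    · rw [if_neg h, if_neg h]
      have h4 : c * (∑ n ∈ Ioc z y, fw n + fw (y + 1)) +
          (th p y + 0 - c * ((y + 1 : ℕ) : ℝ)) * fw (y + 1) -
          (th p z - c * z) * fw z = (c * ∑ n ∈ Ioc z y, fw n + (th p y - c * y) * fw y -
          (th p z - c * z) * fw z) - (th p y - c * y) * (fw y - fw (y + 1)) := by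
        rw [h3]; ring
      rw [h4]
      linarith

lemma log_log_succ {n : ℕ} (hn : 2 ≤ n) :
    fw (n + 1) ≤ Real.log (Real.log ((n + 1 : ℕ) : ℝ)) - Real.log (Real.log n) ∧
    Real.log (Real.log ((n + 1 : ℕ) : ℝ)) - Real.log (Real.log n) ≤ fw n := by
  have hn0 : (0 : ℝ) < n := by positivity
  have hn1 : (0 : ℝ) < ((n + 1 : ℕ) : ℝ) := by positivity
  have hl0 : 0 < Real.log (n : ℝ) := Real.log_pos (by exact_mod_cast (by omega : 1 < n))
  have hl1 : 0 < Real.log ((n + 1 : ℕ) : ℝ) := Real.log_pos (by exact_mod_cast (by omega : 1 < n + 1))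
  have hA : 1 / ((n + 1 : ℕ) : ℝ) ≤ Real.log ((n + 1 : ℕ) : ℝ) - Real.log n := by
    rw [← Real.log_div hn1.ne' hn0.ne']
    have h2 := Real.one_sub_inv_le_log_of_pos (show 0 < ((n + 1 : ℕ) : ℝ) / (n : ℝ) by positivity)
    rw [inv_div] at h2
    refine le_trans (le_of_eq ?_) h2
    field_simp
    push_cast
    ring
  have hB : Real.log ((n + 1 : ℕ) : ℝ) - Real.log n ≤ 1 / (n : ℝ) := by
    rw [← Real.log_div hn1.ne' hn0.ne']
    have h2 := Real.log_le_sub_one_of_pos (show 0 < ((n + 1 : ℕ) : ℝ) / (n : ℝ) by positivity)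
    refine h2.trans (le_of_eq ?_)
    field_simp
    push_cast
    ring
  constructor
  · rw [← Real.log_div hl1.ne' hl0.ne']
    have h2 := Real.one_sub_inv_le_log_of_pos (show 0 < Real.log ((n + 1 : ℕ) : ℝ) / Real.log (n : ℝ) by positivity)
    rw [inv_div] at h2
    refine le_trans ?_ h2
    unfold fw
    rw [one_sub_div hl1.ne', ← div_div]
    exact div_le_div_of_nonneg_right hA hl1.le
  · rw [← Real.log_div hl1.ne' hl0.ne']
    have h2 := Real.log_le_sub_one_of_pos (show 0 < Real.log ((n + 1 : ℕ) : ℝ) / Real.log (n : ℝ) by positivity)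
    refine h2.trans ?_
    unfold fw
    rw [div_sub_one hl0.ne', ← div_div]
    exact div_le_div_of_nonneg_right hB hl0.le

lemma fw_sum_upper {z y : ℕ} (hz : 2 ≤ z) (hy : z ≤ y) :
    ∑ n ∈ Ioc z y, fw n ≤ Real.log (Real.log (y : ℝ)) - Real.log (Real.log (z : ℝ)) := by
  induction y, hy using Nat.le_induction with
  | base => simp
  | succ y hy ih =>
    rw [Finset.sum_Ioc_succ_top (by omega)]
    have := (log_log_succ (hz.trans hy)).1
    linarith

/-- the sum over the primes `≡ 1 (mod p)` in `(a, b]` -/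
lemma sum_ap {p : ℕ} (hp : p.Prime) {δ : ℝ} (hδ : 0 < δ) :
    ∃ a₀ : ℕ, 2 ≤ a₀ ∧ ∀ a ≥ a₀, ∀ b : ℕ, a ≤ b → b ≤ a ^ p →
      |∑ r ∈ (Ioc a b).filter (fun r => r.Prime ∧ r % p = 1), ((p : ℝ) - 1) / r -
        (Real.log (Real.log b) - Real.log (Real.log a))| ≤ δ := by
  have hp1 : (0 : ℝ) < (p : ℝ) - 1 := by
    have : (1 : ℝ) < p := by exact_mod_cast hp.one_lt
    linarith
  have hp0 : (0 : ℝ) < p := by linarith
  have hlp : 0 < Real.log p := Real.log_pos (by linarith)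
  set η : ℝ := min (δ / (2 * (Real.log p + 1))) 1 / ((p : ℝ) - 1) with hη
  have hη0 : 0 < η := by
    rw [hη]
    apply div_pos _ hp1
    exact lt_min (by positivity) one_pos
  have hη1 : ((p : ℝ) - 1) * η ≤ 1 := by
    rw [hη, mul_div_cancel₀ _ hp1.ne']
    exact min_le_right _ _
  have hη2 : ((p : ℝ) - 1) * η * Real.log p ≤ δ / 2 := by
    have h1 : ((p : ℝ) - 1) * η ≤ δ / (2 * (Real.log p + 1)) := by
      rw [hη, mul_div_cancel₀ _ hp1.ne']
      exact min_le_left _ _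
    rw [le_div_iff₀ (by positivity)] at h1
    have h2 : 0 < ((p : ℝ) - 1) * η := by positivity
    nlinarith
  obtain ⟨n1, hn1⟩ := th_lower p hp hη0
  obtain ⟨n2, hn2⟩ := th_upper p hp hη0
  have hlog : Tendsto (fun z : ℕ => Real.log (z : ℝ)) atTop atTop :=
    Real.tendsto_log_atTop.comp tendsto_natCast_atTop_atTop
  obtain ⟨n3, hn3⟩ := eventually_atTop.1 (hlog.eventually_ge_atTop (2 * (2 + ((p : ℝ) - 1) * Real.log 4) / δ))
  refine ⟨max (max n1 n2) (max n3 2), (le_max_right _ _).trans (le_max_right _ _), ?_⟩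
  intro a ha b hab hbp
  have ha1 : n1 ≤ a := (le_max_left _ _).trans ((le_max_left _ _).trans ha)
  have ha2 : n2 ≤ a := (le_max_right _ _).trans ((le_max_left _ _).trans ha)
  have ha3 : n3 ≤ a := (le_max_left _ _).trans ((le_max_right _ _).trans ha)
  have ha22 : 2 ≤ a := (le_max_right _ _).trans ((le_max_right _ _).trans ha)
  have hla : 0 < Real.log (a : ℝ) := Real.log_pos (by exact_mod_cast (by omega : 1 < a))
  have hlb : Real.log (a : ℝ) ≤ Real.log (b : ℝ) :=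
    Real.log_le_log (by exact_mod_cast (by omega : 0 < a)) (by exact_mod_cast hab)
  have hsmall : (2 + ((p : ℝ) - 1) * Real.log 4) / Real.log a ≤ δ / 2 := by
    have h1 := hn3 a ha3
    rw [div_le_iff₀ hδ] at h1
    rw [div_le_iff₀ hla]
    linarith
  set L : ℝ := Real.log (Real.log b) - Real.log (Real.log a) with hL
  have hL0 : 0 ≤ L := by
    rw [hL, sub_nonneg]
    exact Real.log_le_log hla hlb
  have hLp : L ≤ Real.log p := by
    have h1 : Real.log (b : ℝ) ≤ p * Real.log a := by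
      rw [← Real.log_pow]
      apply Real.log_le_log (by exact_mod_cast (by omega : 0 < b))
      exact_mod_cast hbp
    have h2 : Real.log (Real.log b) ≤ Real.log p + Real.log (Real.log a) := by
      rw [← Real.log_mul hp0.ne' hla.ne']
      exact Real.log_le_log (by linarith) h1
    linarith
  set D : ℝ := ∑ n ∈ Ioc a b, fw n with hD
  have hDu : D ≤ L := fw_sum_upper ha22 hab
  have hDl : L - 1 / Real.log a ≤ D := by
    have h1 := fw_sum ha22 hab
    have h2 := (log_log_succ ha22).2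
    have h3 := (log_log_succ (ha22.trans hab)).1
    have h4 := fw_nonneg (b + 1)
    have h5 : fw a ≤ 1 / Real.log a := by
      unfold fw
      apply one_div_le_one_div_of_le hla
      have : (1 : ℝ) ≤ a := by exact_mod_cast (by omega : 1 ≤ a)
      nlinarith
    rw [hL]
    linarith
  set S : ℝ := ∑ l ∈ (Ioc a b).filter (fun l => l.Prime ∧ l % p = 1), (1 : ℝ) / l with hS
  have hsum : ∑ r ∈ (Ioc a b).filter (fun r => r.Prime ∧ r % p = 1), ((p : ℝ) - 1) / r =
      ((p : ℝ) - 1) * S := by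
    rw [hS, Finset.mul_sum]
    apply Finset.sum_congr rfl
    intro l _
    ring
  have hfwa : (a : ℝ) * fw a = 1 / Real.log a := by
    unfold fw
    have : (a : ℝ) ≠ 0 := by exact_mod_cast (by omega : a ≠ 0)
    field_simp
  have hth0 : 0 ≤ th p a := by
    unfold th
    apply Finset.sum_nonneg
    intro l _
    exact Real.log_natCast_nonneg l
  have hup : S ≤ (((p : ℝ) - 1)⁻¹ + η) * (L + 1 / Real.log a) := by
    have h1 := abel_upper p a ha22 (((p : ℝ) - 1)⁻¹ + η) (fun n hn => hn2 n (ha2.trans hn)) b hab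
    have h2 : (th p b - (((p : ℝ) - 1)⁻¹ + η) * b) * fw b ≤ 0 :=
      mul_nonpos_of_nonpos_of_nonneg (by linarith [hn2 b (ha2.trans hab)]) (fw_nonneg _)
    have h3 : -((th p a - (((p : ℝ) - 1)⁻¹ + η) * a) * fw a) ≤ (((p : ℝ) - 1)⁻¹ + η) * (1 / Real.log a) := by
      rw [← hfwa]
      have := mul_nonneg hth0 (fw_nonneg a)
      nlinarith
    have hc : 0 ≤ ((p : ℝ) - 1)⁻¹ + η := by positivity
    have h4 := mul_le_mul_of_nonneg_left hDu hc
    rw [mul_add]
    linarith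
  have hlow : (((p : ℝ) - 1)⁻¹ - η) * (L - 1 / Real.log a) - Real.log 4 / Real.log a ≤ S := by
    have h1 := abel p a ha22 (((p : ℝ) - 1)⁻¹ - η) (fun n hn => hn1 n (ha1.trans hn)) b hab
    have h2 : 0 ≤ (th p b - (((p : ℝ) - 1)⁻¹ - η) * b) * fw b :=
      mul_nonneg (by linarith [hn1 b (ha1.trans hab)]) (fw_nonneg _)
    have hc : 0 ≤ ((p : ℝ) - 1)⁻¹ - η := by
      rw [sub_nonneg, ← one_div, le_div_iff₀ hp1]
      linarith
    have h3 : (th p a - (((p : ℝ) - 1)⁻¹ - η) * a) * fw a ≤ Real.log 4 / Real.log a := by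
      have h5 : (th p a - (((p : ℝ) - 1)⁻¹ - η) * a) * fw a ≤ (Real.log 4 * a) * fw a := by
        apply mul_le_mul_of_nonneg_right _ (fw_nonneg a)
        have := th_le p a
        have : 0 ≤ (((p : ℝ) - 1)⁻¹ - η) * a := by positivity
        linarith
      refine h5.trans (le_of_eq ?_)
      rw [mul_assoc, hfwa]
      ring
    have h4 := mul_le_mul_of_nonneg_left hDl hc
    linarith
  have hia : 0 < 1 / Real.log (a : ℝ) := by positivity
  have e1 : ((p : ℝ) - 1) * (((p : ℝ) - 1)⁻¹ + η) = 1 + ((p : ℝ) - 1) * η := by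
    field_simp
  have e2 : ((p : ℝ) - 1) * (((p : ℝ) - 1)⁻¹ - η) = 1 - ((p : ℝ) - 1) * η := by
    field_simp
  have hμ0 : 0 < ((p : ℝ) - 1) * η := by positivity
  have hsmall' : 2 * (1 / Real.log a) + ((p : ℝ) - 1) * (Real.log 4 / Real.log a) ≤ δ / 2 := by
    refine le_trans (le_of_eq ?_) hsmall
    field_simp
  have hμL : ((p : ℝ) - 1) * η * L ≤ δ / 2 := by
    refine le_trans ?_ hη2
    exact mul_le_mul_of_nonneg_left hLp hμ0.le
  have h4l : 0 ≤ ((p : ℝ) - 1) * (Real.log 4 / Real.log a) := by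
    have : 0 ≤ Real.log (4 : ℝ) := Real.log_nonneg (by norm_num)
    positivity
  rw [hsum, abs_le]
  constructor
  · have h1 := mul_le_mul_of_nonneg_left hlow hp1.le
    rw [mul_sub, ← mul_assoc, e2] at h1
    nlinarith
  · have h1 := mul_le_mul_of_nonneg_left hup hp1.le
    rw [← mul_assoc, e1] at h1
    nlinarith

/-- D1: the product over the primes `r ≡ 1` modulo `p`. -/
theorem prod_ap {p : ℕ} (hp : p.Prime) (h3 : 3 ≤ p) {ε : ℝ} (hε : 0 < ε) :
    ∃ a₀ : ℕ, ∀ a ≥ a₀, ∀ b : ℕ, a ≤ b → b ≤ a ^ p →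
      |∏ r ∈ (Ioc a b).filter (fun r => r.Prime ∧ r % p = 1), (1 - ((p : ℝ) - 1) / r)
        - Real.log a / Real.log b| ≤ ε := by
  have hp1 : (0 : ℝ) < (p : ℝ) - 1 := by
    have : (1 : ℝ) < p := by exact_mod_cast hp.one_lt
    linarith
  set δ : ℝ := min (ε / 4) (1 / 4) with hδ
  have hδ0 : 0 < δ := lt_min (by linarith) (by norm_num)
  have hδ1 : δ ≤ ε / 4 := min_le_left _ _
  have hδ2 : δ ≤ 1 / 4 := min_le_right _ _
  obtain ⟨a₁, ha₁2, ha₁⟩ := sum_ap hp hδ0
  obtain ⟨a₂, ha₂⟩ := exists_nat_gt (2 * ((p : ℝ) - 1) ^ 2 / δ)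
  refine ⟨max a₁ (max a₂ (2 * p)), fun a ha b hab hbp => ?_⟩
  have haa1 : a₁ ≤ a := (le_max_left _ _).trans ha
  have haa2 : a₂ ≤ a := (le_max_left _ _).trans ((le_max_right _ _).trans ha)
  have haap : 2 * p ≤ a := (le_max_right _ _).trans ((le_max_right _ _).trans ha)
  have ha0 : (0 : ℝ) < a := by exact_mod_cast (by omega : 0 < a)
  have hS := ha₁ a haa1 b hab hbp
  set S : ℝ := ∑ r ∈ (Ioc a b).filter (fun r => r.Prime ∧ r % p = 1), ((p : ℝ) - 1) / r with hSdef
  have hla : 0 < Real.log (a : ℝ) := Real.log_pos (by exact_mod_cast (by omega : 1 < a))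
  have hlb : 0 < Real.log (b : ℝ) := Real.log_pos (by exact_mod_cast (by omega : 1 < b))
  set x : ℝ := Real.log a / Real.log b with hx
  have hx0 : 0 < x := by positivity
  have hx1 : x ≤ 1 := by
    rw [hx, div_le_one hlb]
    exact Real.log_le_log ha0 (by exact_mod_cast hab)
  have hxe : x = Real.exp (-(Real.log (Real.log b) - Real.log (Real.log a))) := by
    rw [neg_sub, Real.exp_sub, Real.exp_log hla, Real.exp_log hlb]
  rw [abs_le] at hS
  have ht : ∀ r ∈ (Ioc a b).filter (fun r => r.Prime ∧ r % p = 1),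
      0 ≤ ((p : ℝ) - 1) / r ∧ ((p : ℝ) - 1) / r ≤ 1 / 2 := by
    intro r hr
    rw [mem_filter, mem_Ioc] at hr
    have hr0 : (0 : ℝ) < r := by exact_mod_cast (by omega : 0 < r)
    refine ⟨by positivity, ?_⟩
    rw [div_le_iff₀ hr0]
    have : ((2 * p : ℕ) : ℝ) ≤ r := by exact_mod_cast (by omega : 2 * p ≤ r)
    push_cast at this
    linarith
  -- upper bound
  have hup : ∏ r ∈ (Ioc a b).filter (fun r => r.Prime ∧ r % p = 1), (1 - ((p : ℝ) - 1) / r) ≤
      Real.exp (-S) := by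
    rw [hSdef, ← Finset.sum_neg_distrib, Real.exp_sum]
    apply Finset.prod_le_prod
    · intro r hr
      have := (ht r hr).2
      linarith
    · intro r _
      have := Real.add_one_le_exp (-(((p : ℝ) - 1) / r))
      linarith
  -- lower bound
  have hQ : ∑ r ∈ (Ioc a b).filter (fun r => r.Prime ∧ r % p = 1), 2 * (((p : ℝ) - 1) / r) ^ 2 ≤ δ := by
    have h1 : ∑ r ∈ (Ioc a b).filter (fun r => r.Prime ∧ r % p = 1), 2 * (((p : ℝ) - 1) / r) ^ 2 ≤
        ∑ r ∈ Ioc a b, 2 * ((p : ℝ) - 1) ^ 2 * ((r : ℝ) ^ 2)⁻¹ := by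
      have h0 : ∑ r ∈ (Ioc a b).filter (fun r => r.Prime ∧ r % p = 1), 2 * (((p : ℝ) - 1) / r) ^ 2 =
          ∑ r ∈ (Ioc a b).filter (fun r => r.Prime ∧ r % p = 1), 2 * ((p : ℝ) - 1) ^ 2 * ((r : ℝ) ^ 2)⁻¹ := by
        apply Finset.sum_congr rfl
        intro r _
        rw [div_pow]
        ring
      rw [h0]
      exact Finset.sum_le_sum_of_subset_of_nonneg (Finset.filter_subset _ _) (fun r _ _ => by positivity)
    have h1' : ∑ r ∈ Ioc a b, 2 * ((p : ℝ) - 1) ^ 2 * ((r : ℝ) ^ 2)⁻¹ =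
        2 * ((p : ℝ) - 1) ^ 2 * ∑ r ∈ Ioc a b, ((r : ℝ) ^ 2)⁻¹ := by rw [Finset.mul_sum]
    rw [h1'] at h1
    have h2 : ∑ r ∈ Ioc a b, ((r : ℝ) ^ 2)⁻¹ ≤ (a : ℝ)⁻¹ := by
      have := sum_Ioc_inv_sq_le_sub (α := ℝ) (by omega : a ≠ 0) hab
      have h3 : (0 : ℝ) ≤ (b : ℝ)⁻¹ := by positivity
      linarith
    have h3 : 2 * ((p : ℝ) - 1) ^ 2 * ∑ r ∈ Ioc a b, ((r : ℝ) ^ 2)⁻¹ ≤ 2 * ((p : ℝ) - 1) ^ 2 * (a : ℝ)⁻¹ :=
      mul_le_mul_of_nonneg_left h2 (by positivity)
    refine h1.trans (h3.trans ?_)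
    have h4 : 2 * ((p : ℝ) - 1) ^ 2 / δ < a := ha₂.trans_le (by exact_mod_cast haa2)
    rw [div_lt_iff₀ hδ0] at h4
    rw [← div_eq_mul_inv, div_le_iff₀ ha0]
    linarith
  have hlow : Real.exp (-S - δ) ≤
      ∏ r ∈ (Ioc a b).filter (fun r => r.Prime ∧ r % p = 1), (1 - ((p : ℝ) - 1) / r) := by
    have h1 : Real.exp (-S - δ) ≤ Real.exp (∑ r ∈ (Ioc a b).filter (fun r => r.Prime ∧ r % p = 1),
        (-(((p : ℝ) - 1) / r) - 2 * (((p : ℝ) - 1) / r) ^ 2)) := by
      apply Real.exp_le_exp.2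
      rw [Finset.sum_sub_distrib, Finset.sum_neg_distrib]
      linarith
    refine h1.trans ?_
    rw [Real.exp_sum]
    apply Finset.prod_le_prod
    · intro r _
      exact (Real.exp_pos _).le
    · intro r hr
      obtain ⟨h2, h4⟩ := ht r hr
      set t : ℝ := ((p : ℝ) - 1) / r with htdef
      have h5 : 1 + t + 2 * t ^ 2 ≤ Real.exp (t + 2 * t ^ 2) := by
        have := Real.add_one_le_exp (t + 2 * t ^ 2)
        linarith
      have h6 : 1 ≤ (1 - t) * Real.exp (t + 2 * t ^ 2) := by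
        have h7 : (1 - t) * (1 + t + 2 * t ^ 2) ≤ (1 - t) * Real.exp (t + 2 * t ^ 2) :=
          mul_le_mul_of_nonneg_left h5 (by linarith)
        have h8 : 1 ≤ (1 - t) * (1 + t + 2 * t ^ 2) := by nlinarith [mul_nonneg (sq_nonneg t) (by linarith : 0 ≤ 1 - 2 * t)]
        linarith
      have h9 : Real.exp (-t - 2 * t ^ 2) * Real.exp (t + 2 * t ^ 2) = 1 := by
        rw [← Real.exp_add]
        have : -t - 2 * t ^ 2 + (t + 2 * t ^ 2) = 0 := by ring
        rw [this, Real.exp_zero]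
      have h10 := Real.exp_pos (t + 2 * t ^ 2)
      nlinarith
  -- conclusion
  have hexp : Real.exp δ ≤ 1 + 2 * δ := by
    have h1 := Real.add_one_le_exp (-δ)
    have h2 : Real.exp δ * Real.exp (-δ) = 1 := by
      rw [← Real.exp_add, add_neg_cancel, Real.exp_zero]
    have h3 := Real.exp_pos δ
    have h4 : Real.exp δ * (1 - δ) ≤ 1 := by nlinarith
    have h5 : 1 ≤ (1 + 2 * δ) * (1 - δ) := by nlinarith
    by_contra hcon
    push Not at hcon
    have : (1 + 2 * δ) * (1 - δ) < Real.exp δ * (1 - δ) := mul_lt_mul_of_pos_right hcon (by linarith)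
    linarith
  rw [abs_le]
  constructor
  · have h1 : x * (1 - 2 * δ) ≤ Real.exp (-S - δ) := by
      have h2 : Real.exp (-(Real.log (Real.log b) - Real.log (Real.log a)) - 2 * δ) ≤ Real.exp (-S - δ) :=
        Real.exp_le_exp.2 (by linarith [hS.2])
      rw [sub_eq_add_neg _ (2 * δ), Real.exp_add, ← hxe] at h2
      have h3 := Real.add_one_le_exp (-(2 * δ))
      have h4 : x * (1 - 2 * δ) ≤ x * Real.exp (-(2 * δ)) := mul_le_mul_of_nonneg_left (by linarith) hx0.le
      linarith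
    have h2 : x * (2 * δ) ≤ 1 * (2 * δ) := mul_le_mul_of_nonneg_right hx1 (by linarith)
    nlinarith
  · have h1 : Real.exp (-S) ≤ x * (1 + 2 * δ) := by
      have h2 : Real.exp (-S) ≤ Real.exp (-(Real.log (Real.log b) - Real.log (Real.log a)) + δ) :=
        Real.exp_le_exp.2 (by linarith [hS.1])
      rw [Real.exp_add, ← hxe] at h2
      exact h2.trans (mul_le_mul_of_nonneg_left hexp hx0.le)
    have h2 : x * (2 * δ) ≤ 1 * (2 * δ) := mul_le_mul_of_nonneg_right hx1 (by linarith)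
    nlinarith

end Pool.Agent.L5helper32.GP
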