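import Pool.Agent.L5helper69.SV.Defs4

/-! Functions on `ℤ ^ s` with a recurrence in every direction. -/

set_option autoImplicit false

namespace Pool.Agent.L5helper69.SV3

open Pool.Agent.L5helper69.SV2 Polynomial

private lemma coeff_zero_ne {P Q : ℂ[X]} (hP0 : P.coeff 0 ≠ 0) (hQ : Q.Monic) (h : RootsIn P Q) :
    Q.coeff 0 ≠ 0 := by
  intro h0
  have h1 : (0 : ℂ) ∈ Q.roots := by
    rw [Polynomial.mem_roots hQ.ne_zero, Polynomial.IsRoot.def, ← Polynomial.coeff_zero_eq_eval_zero]
    exact h0
  have h2 := h 0 h1
  have h3 : ∀ z ∈ Submonoid.closure {x : ℂ | x ∈ P.roots}, z ≠ 0 := by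
    intro z hz
    induction hz using Submonoid.closure_induction with
    | mem x hx =>
      rintro rfl
      have hx' : (0 : ℂ) ∈ P.roots := hx
      have h4 := (Polynomial.mem_roots'.1 hx').2
      rw [Polynomial.IsRoot.def, ← Polynomial.coeff_zero_eq_eval_zero] at h4
      exact hP0 h4
    | one => exact one_ne_zero
    | mul x y _ _ hx hy => exact mul_ne_zero hx hy
  exact h3 0 h2 rfl

private lemma proj_mem {s : ℕ} (P : Fin s → ℂ[X]) (j : Fin s) {a : ℤ → ℂ} (ha : a ∈ RngZ (P j)) :
    (fun n : Fin s → ℤ => a (n j)) ∈ RngM P := by
  let φ : (ℤ → ℂ) →ₐ[ℂ] ((Fin s → ℤ) → ℂ) :=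
    AlgHom.pi (fun n => Pi.evalAlgHom ℂ (fun _ : ℤ => ℂ) (n j))
  have h : RngZ (P j) ≤ (RngM P).comap φ := by
    unfold RngZ
    apply Algebra.adjoin_le
    rintro b (hb | ⟨z, hz, hb⟩)
    · rw [Set.mem_singleton_iff] at hb
      subst hb
      show φ _ ∈ RngM P
      apply Algebra.subset_adjoin
      left
      exact ⟨j, rfl⟩
    · subst hb
      show φ _ ∈ RngM P
      apply Algebra.subset_adjoin
      right
      exact ⟨j, z, hz, rfl⟩
  exact h ha

theorem multi : St_Multi := by
  intro hExp hFund s P Q hP hP0 hQ hR b hb
  have hQ0 : ∀ j, (Q j).coeff 0 ≠ 0 := fun j => coeff_zero_ne (hP0 j) (hQ j) (hR j)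
  have key : ∀ T : Finset (Fin s), ∀ m : Fin s → ℤ, (fun n => b (T.piecewise n m)) ∈ RngM P := by
    intro T
    induction T using Finset.induction_on with
    | empty =>
      intro m
      have h1 : (fun n : Fin s → ℤ => b ((∅ : Finset (Fin s)).piecewise n m)) =
          algebraMap ℂ ((Fin s → ℤ) → ℂ) (b m) := by
        funext n
        simp
      rw [h1]
      exact (RngM P).algebraMap_mem _
    | insert j T hj ih =>
      intro m
      obtain ⟨e, he, hfund⟩ := hFund (Q j) (hQ j) (hQ0 j)
      have h1 : (fun n : Fin s → ℤ => b ((insert j T).piecewise n m)) =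
          ∑ i : Fin (Q j).natDegree, (fun n : Fin s → ℤ => e i (n j)) *
            (fun n : Fin s → ℤ => b (T.piecewise n (Function.update m j ((i : ℕ) : ℤ)))) := by
        funext n
        set x : Fin s → ℤ := (insert j T).piecewise n m with hx
        have hk : KillsZ (Q j) (fun t => b (Function.update x j t)) := by
          intro t
          have h2 := hb j (Function.update x j t)
          refine Eq.trans ?_ h2
          apply Finset.sum_congr rfl
          intro i _
          have h6 : Function.update x j (t + (i : ℤ)) = Function.update x j t + Pi.single j (i : ℤ) := by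
            funext l
            by_cases hl : l = j
            · subst hl
              simp
            · simp [Function.update_of_ne hl, Pi.single_eq_of_ne hl]
          show (Q j).coeff i * b (Function.update x j (t + (i : ℤ))) = _
          rw [h6]
        have h3 := hfund _ hk (n j)
        have h4 : Function.update x j (n j) = x := by
          have h5 : x j = n j := by
            rw [hx]
            simp
          rw [← h5]
          exact Function.update_eq_self j x
        rw [h4] at h3
        rw [h3]
        rw [Finset.sum_apply]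
        apply Finset.sum_congr rfl
        intro i _
        simp only [Pi.mul_apply]
        congr 2
        funext l
        by_cases hl : l = j
        · subst hl
          simp [hj]
        · rw [Function.update_of_ne hl, hx]
          by_cases hlT : l ∈ T
          · rw [Finset.piecewise_eq_of_mem _ _ _ (Finset.mem_insert_of_mem hlT),
              Finset.piecewise_eq_of_mem _ _ _ hlT]
          · rw [Finset.piecewise_eq_of_notMem _ _ _ (by simp [hl, hlT]),
              Finset.piecewise_eq_of_notMem _ _ _ hlT, Function.update_of_ne hl]
      rw [h1]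
      apply Subalgebra.sum_mem
      intro i _
      apply (RngM P).mul_mem
      · exact proj_mem P j (hExp (P j) (hP j) (hP0 j) (Q j) (hQ j) (hR j) (e i) (he i))
      · exact ih _
  have h := key Finset.univ 0
  simpa using h

end Pool.Agent.L5helper69.SV3
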